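import Mathlib
import Pool.Agent.H2.TRS3

open Pool.Agent.H2.TRS

theorem Pool.Agent.Results.MP_8e1749_lc.Modularity.result :
    (∀ (L₁ L₂ : FirstOrder.Language.{0,0}) (R₁ : Rules L₁) (R₂ : Rules L₂),
      Finite (Σ n, L₁.Functions n) → Finite (Σ n, L₂.Functions n) →
      IsTRS R₁ → IsTRS R₂ → TotTerm R₁ → TotTerm R₂ → TotTerm (union R₁ R₂)) ∧
    (∃ (L₁ L₂ : FirstOrder.Language.{0,0}) (R₁ : Rules L₁) (R₂ : Rules L₂),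
      IsTRS R₁ ∧ IsTRS R₂ ∧ TotTerm R₁ ∧ TotTerm R₂ ∧ ¬ TotTerm (union R₁ R₂)) :=
  ⟨fun _ _ _ _ _ _ h₁ h₂ t₁ t₂ => modular h₁ h₂ t₁ t₂,
    ⟨L1, L2, R1, R2, R1_trs, R2_trs, R1_tt, R2_tt, union_not_tt⟩⟩
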